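import Pool.Agent.W593.IR.Stm

/-!
# S_PJ: monotone ratios (helper29)
-/

set_option autoImplicit false

open Finset

namespace Pool.Agent.W29.IR

open Pool.Agent.W593.IR

theorem geo (Q v : ℝ) (hQ0 : 0 ≤ Q) (hQv : Q ≤ v) (hv1 : v ≤ 1) (i : ℕ) :
    (1 - v ^ i) * (1 - Q ^ (i + 1)) ≤ (1 - v ^ (i + 1)) * (1 - Q ^ i) := by
  have hv0 : 0 ≤ v := hQ0.trans hQv
  have hQ1 : Q ≤ 1 := hQv.trans hv1
  have gv : ∀ n : ℕ, 1 - v ^ n = (1 - v) * ∑ l ∈ range n, v ^ l := fun n => by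
    have := geom_sum_mul v n
    linarith
  have gQ : ∀ n : ℕ, 1 - Q ^ n = (1 - Q) * ∑ l ∈ range n, Q ^ l := fun n => by
    have := geom_sum_mul Q n
    linarith
  rw [gv i, gQ (i + 1), gv (i + 1), gQ i, Finset.sum_range_succ, Finset.sum_range_succ]
  have h1 : (∑ l ∈ range i, v ^ l) * Q ^ i ≤ v ^ i * ∑ l ∈ range i, Q ^ l := by
    rw [Finset.sum_mul, Finset.mul_sum]
    refine Finset.sum_le_sum fun l hl => ?_
    have hl' := Finset.mem_range.1 hl
    obtain ⟨m, rfl⟩ := Nat.exists_eq_add_of_lt hl'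
    have h2 : Q ^ (m + 1) ≤ v ^ (m + 1) := pow_le_pow_left₀ hQ0 hQv _
    have e1 : v ^ l * Q ^ (l + m + 1) = (v ^ l * Q ^ l) * Q ^ (m + 1) := by ring
    have e2 : v ^ (l + m + 1) * Q ^ l = (v ^ l * Q ^ l) * v ^ (m + 1) := by ring
    rw [e1, e2]
    exact mul_le_mul_of_nonneg_left h2 (by positivity)
  have h3 : 0 ≤ (1 - v) * (1 - Q) := mul_nonneg (by linarith) (by linarith)
  have h4 := mul_le_mul_of_nonneg_left h1 h3
  linarith

theorem core (Q : ℝ) (u : ℕ → ℝ) (r j : ℕ) (hQ0 : 0 ≤ Q) (hQ1 : Q < 1)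
    (hu0 : ∀ i, 0 ≤ u i) (hu1 : ∀ i, u i ≤ 1) (hq : ∀ i, i ≤ r → Q ^ i ≤ u i)
    (hlw : ∀ i, 1 ≤ i → u (i + 1) ^ i ≤ u i ^ (i + 1)) (hj : 1 ≤ j) :
    ∀ m, j ≤ m → m ≤ r → (1 - u j) * (1 - Q ^ m) ≤ (1 - u m) * (1 - Q ^ j) := by
  intro m hjm
  induction m, hjm using Nat.le_induction with
  | base => intro _; exact le_rfl
  | succ m hm ih =>
    intro hmr
    have ih' := ih (by omega)
    have hm1 : 1 ≤ m := hj.trans hm
    have hstep : (1 - u m) * (1 - Q ^ (m + 1)) ≤ (1 - u (m + 1)) * (1 - Q ^ m) := by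
      set v : ℝ := u (m + 1) ^ (((m + 1 : ℕ) : ℝ)⁻¹) with hv
      have hv0 : 0 ≤ v := Real.rpow_nonneg (hu0 _) _
      have hvp : v ^ (m + 1) = u (m + 1) := Real.rpow_inv_natCast_pow (hu0 _) (by omega)
      have hQv : Q ≤ v := by
        have h := hq (m + 1) hmr
        rw [← hvp] at h
        exact le_of_pow_le_pow_left₀ (by omega) hv0 h
      have hv1 : v ≤ 1 := by
        have h := hu1 (m + 1)
        rw [← hvp] at h
        by_contra hc
        push Not at hc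
        have := one_lt_pow₀ hc (show m + 1 ≠ 0 by omega)
        linarith
      have hvu : v ^ m ≤ u m := by
        have h := hlw m hm1
        rw [← hvp, ← pow_mul, mul_comm (m + 1) m, pow_mul] at h
        exact le_of_pow_le_pow_left₀ (by omega) (hu0 m) h
      have h1 := geo Q v hQ0 hQv hv1 m
      rw [hvp] at h1
      have hQm : Q ^ (m + 1) ≤ 1 := pow_le_one₀ hQ0 hQ1.le
      have h2 : (1 - u m) * (1 - Q ^ (m + 1)) ≤ (1 - v ^ m) * (1 - Q ^ (m + 1)) :=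
        mul_le_mul_of_nonneg_right (by linarith) (by linarith)
      exact h2.trans h1
    have hQm : 0 < 1 - Q ^ m := by
      have := pow_lt_one₀ hQ0 hQ1 (show m ≠ 0 by omega)
      linarith
    have hQm1 : 0 ≤ 1 - Q ^ (m + 1) := by
      have := pow_le_one₀ (n := m + 1) hQ0 hQ1.le
      linarith
    have hQj : 0 ≤ 1 - Q ^ j := by
      have := pow_le_one₀ (n := j) hQ0 hQ1.le
      linarith
    have a1 := mul_le_mul_of_nonneg_right ih' hQm1
    have a2 := mul_le_mul_of_nonneg_right hstep hQj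
    have a3 : (1 - Q ^ m) * ((1 - u j) * (1 - Q ^ (m + 1))) ≤
        (1 - Q ^ m) * ((1 - u (m + 1)) * (1 - Q ^ j)) := by linarith
    exact le_of_mul_le_mul_left a3 hQm

theorem pj (h1 : S_LW) (h2 : S_SJ) : S_PJ := by
  intro V _ _ y r j hy hm hj hjr
  set N : ℝ := (Fintype.card V : ℝ) with hN
  have hN0 : 0 < N := by
    rw [hN]; exact_mod_cast Fintype.card_pos
  have hcomp : ∀ i : ℕ, (NG y i : ℝ) = N ^ i - NL y i := by
    intro i
    have hc : {f : Fin i → V | 1 ≤ ∑ l, y (f l)} = {f : Fin i → V | ∑ l, y (f l) < 1}ᶜ := by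
      ext f; simp
    have h3 := Set.ncard_add_ncard_compl {f : Fin i → V | ∑ l, y (f l) < 1}
    rw [← hc, Nat.card_eq_fintype_card, Fintype.card_fun, Fintype.card_fin] at h3
    have h4 : (NL y i : ℝ) + (NG y i : ℝ) = N ^ i := by
      rw [hN]
      unfold NL NG
      exact_mod_cast h3
    linarith
  set u : ℕ → ℝ := fun i => (NL y i : ℝ) / N ^ i with hu
  have hp : ∀ i : ℕ, (NG y i : ℝ) / N ^ i = 1 - u i := by
    intro i
    have h0 : N ^ i ≠ 0 := (pow_pos hN0 i).ne'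
    rw [hcomp i, sub_div, div_self h0]
  have hr0 : (0 : ℝ) < (r : ℝ) + 1 := by positivity
  have hr1 : (1 : ℝ) ≤ r := by exact_mod_cast hj.trans hjr
  have hQ0 : 0 ≤ 1 - 1 / ((r : ℝ) + 1) := by
    rw [sub_nonneg, div_le_one hr0]; linarith
  have hQ1 : 1 - 1 / ((r : ℝ) + 1) < 1 := by
    have : 0 < 1 / ((r : ℝ) + 1) := by positivity
    linarith
  rw [hp j, hp r]
  refine core (1 - 1 / ((r : ℝ) + 1)) u r j hQ0 hQ1 (fun i => by positivity) ?_ ?_ ?_ hj r hjr le_rfl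
  · intro i
    have h3 : 0 ≤ (NG y i : ℝ) / N ^ i := by positivity
    rw [hp i] at h3
    linarith
  · intro i hi
    have h3 := h2 V y r i hy hm hi
    rw [hu]
    show _ ≤ (NL y i : ℝ) / N ^ i
    rw [le_div_iff₀ (pow_pos hN0 i)]
    exact h3
  · intro i hi
    have h3 := h1 V y hy i hi
    have h4 : ((NL y (i + 1) : ℝ)) ^ i ≤ ((NL y i : ℝ)) ^ (i + 1) := by exact_mod_cast h3
    show ((NL y (i + 1) : ℝ) / N ^ (i + 1)) ^ i ≤ ((NL y i : ℝ) / N ^ i) ^ (i + 1)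
    rw [div_pow, div_pow, ← pow_mul, ← pow_mul, mul_comm (i + 1) i]
    exact div_le_div_of_nonneg_right h4 (by positivity)

end Pool.Agent.W29.IR
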